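import Pool.Agent.H98.OC.H2
import Pool.Agent.H81.OC.Chains

/-!
# The chains (H2) and (H3') summed over arbitrary sets of windows of the mesh, and the choice of
one context

`df2`, `df3` are the terms of `H2Stmt` and of `H3Stmt`. The sums over separated sequences give the
sums over arbitrary finite sets of windows (residue classes), and `OCH.fub` gives one context which
is good for both.
-/

set_option autoImplicit false

namespace Pool.K2S

open Finset Real
open Pool.Agent.H49.Ent Pool.Agent.H32.Dense Pool.STK Pool.KA Pool.KSAT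

/-! ### Sums over separated sequences and sums over sets -/

namespace H23

/-- A separated set as a decreasing sequence. -/
theorem enum_desc (t : ℕ) : ∀ S : Finset ℕ, S.Nonempty →
    (∀ x ∈ S, ∀ y ∈ S, x < y → x + t ≤ y) →
    ∃ w : ℕ → ℕ, (∀ j, w j ∈ S) ∧ (∀ j, j + 1 < S.card → w (j + 1) + t ≤ w j) ∧
      ∀ g : ℕ → ℝ, ∑ j ∈ Finset.range S.card, g (w j) = ∑ x ∈ S, g x := by
  intro S
  induction S using Finset.induction_on_max with
  | empty => intro h; exact absurd h Finset.not_nonempty_empty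
  | insert a S ha ih =>
    intro _ hsep
    have haS : a ∉ S := fun h => lt_irrefl _ (ha a h)
    rcases S.eq_empty_or_nonempty with rfl | hne
    · refine ⟨fun _ => a, fun j => by simp, fun j hj => ?_, fun g => ?_⟩
      · simp at hj
      · simp
    · obtain ⟨w, h1, h2, h3⟩ := ih hne (fun x hx y hy => hsep x (Finset.mem_insert_of_mem hx) y
        (Finset.mem_insert_of_mem hy))
      refine ⟨fun j => if j = 0 then a else w (j - 1), fun j => ?_, fun j hj => ?_, fun g => ?_⟩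
      · by_cases hj : j = 0
        · simp [hj]
        · simp only [hj, if_false]
          exact Finset.mem_insert_of_mem (h1 _)
      · rw [Finset.card_insert_of_notMem haS] at hj
        by_cases hj0 : j = 0
        · subst hj0
          simp only [Nat.zero_add, one_ne_zero, if_false, if_true, Nat.sub_self]
          exact hsep _ (Finset.mem_insert_of_mem (h1 0)) _ (Finset.mem_insert_self _ _)
            (ha _ (h1 0))
        · obtain ⟨k, rfl⟩ : ∃ k, j = k + 1 := ⟨j - 1, by omega⟩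
          simp only [Nat.add_eq_zero_iff, one_ne_zero, and_false, if_false, Nat.add_sub_cancel]
          exact h2 k (by omega)
      · rw [Finset.card_insert_of_notMem haS, Finset.sum_range_succ', Finset.sum_insert haS]
        simp only [Nat.add_eq_zero_iff, one_ne_zero, and_false, if_false, Nat.add_sub_cancel,
          if_true]
        rw [h3 g]
        ring

/-- A separated set as an increasing sequence. -/
theorem enum_asc (t : ℕ) : ∀ S : Finset ℕ, S.Nonempty →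
    (∀ x ∈ S, ∀ y ∈ S, x < y → x + t ≤ y) →
    ∃ w : ℕ → ℕ, (∀ j, w j ∈ S) ∧ (∀ j, j + 1 < S.card → w j + t ≤ w (j + 1)) ∧
      ∀ g : ℕ → ℝ, ∑ j ∈ Finset.range S.card, g (w j) = ∑ x ∈ S, g x := by
  intro S
  induction S using Finset.induction_on_min with
  | empty => intro h; exact absurd h Finset.not_nonempty_empty
  | insert a S ha ih =>
    intro _ hsep
    have haS : a ∉ S := fun h => lt_irrefl _ (ha a h)
    rcases S.eq_empty_or_nonempty with rfl | hne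
    · refine ⟨fun _ => a, fun j => by simp, fun j hj => ?_, fun g => ?_⟩
      · simp at hj
      · simp
    · obtain ⟨w, h1, h2, h3⟩ := ih hne (fun x hx y hy => hsep x (Finset.mem_insert_of_mem hx) y
        (Finset.mem_insert_of_mem hy))
      refine ⟨fun j => if j = 0 then a else w (j - 1), fun j => ?_, fun j hj => ?_, fun g => ?_⟩
      · by_cases hj : j = 0
        · simp [hj]
        · simp only [hj, if_false]
          exact Finset.mem_insert_of_mem (h1 _)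
      · rw [Finset.card_insert_of_notMem haS] at hj
        by_cases hj0 : j = 0
        · subst hj0
          simp only [Nat.zero_add, one_ne_zero, if_false, if_true, Nat.sub_self]
          exact hsep _ (Finset.mem_insert_self _ _) _ (Finset.mem_insert_of_mem (h1 0))
            (ha _ (h1 0))
        · obtain ⟨k, rfl⟩ : ∃ k, j = k + 1 := ⟨j - 1, by omega⟩
          simp only [Nat.add_eq_zero_iff, one_ne_zero, and_false, if_false, Nat.add_sub_cancel]
          exact h2 k (by omega)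
      · rw [Finset.card_insert_of_notMem haS, Finset.sum_range_succ', Finset.sum_insert haS]
        simp only [Nat.add_eq_zero_iff, one_ne_zero, and_false, if_false, Nat.add_sub_cancel,
          if_true]
        rw [h3 g]
        ring

/-- The residue classes of a set are separated. -/
theorem class_sep (S : Finset ℕ) (t r : ℕ) :
    ∀ x ∈ S.filter (fun x => x % t = r), ∀ y ∈ S.filter (fun x => x % t = r),
      x < y → x + t ≤ y := by
  intro x hx y hy hxy
  have h1 := (Finset.mem_filter.1 hx).2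
  have h2 := (Finset.mem_filter.1 hy).2
  by_contra hcon
  have h3 : x % t = y % t := h1.trans h2.symm
  have h4 : (y - x) % t = 0 := Nat.sub_mod_eq_zero_of_mod_eq h3.symm
  have h5 : t ∣ y - x := Nat.dvd_of_mod_eq_zero h4
  have h6 := Nat.le_of_dvd (by omega) h5
  omega

/-- Sum over a set from the sums over its residue classes. -/
theorem sum_class (g : ℕ → ℝ) (S : Finset ℕ) (t : ℕ) (ht : 0 < t) {B C : ℝ} (hB : 0 ≤ B)
    (h : ∀ S' ⊆ S, S'.Nonempty → (∀ x ∈ S', ∀ y ∈ S', x < y → x + t ≤ y) →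
      ∑ x ∈ S', g x ≤ B + C * S'.card) :
    ∑ x ∈ S, g x ≤ t * B + C * S.card := by
  classical
  have e1 : ∑ x ∈ S, g x =
      ∑ r ∈ Finset.range t, ∑ x ∈ S.filter (fun x => x % t = r), g x := by
    rw [Finset.sum_fiberwise_of_maps_to]
    intro x _
    exact Finset.mem_range.2 (Nat.mod_lt _ ht)
  have e2 : ((S.card : ℕ) : ℝ) =
      ∑ r ∈ Finset.range t, (((S.filter (fun x => x % t = r)).card : ℕ) : ℝ) := by
    rw [← Nat.cast_sum, ← Finset.card_eq_sum_card_fiberwise]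
    intro x _
    exact Finset.mem_coe.2 (Finset.mem_range.2 (Nat.mod_lt _ ht))
  have e3 : ∀ r ∈ Finset.range t, ∑ x ∈ S.filter (fun x => x % t = r), g x ≤
      B + C * (((S.filter (fun x => x % t = r)).card : ℕ) : ℝ) := by
    intro r _
    rcases (S.filter (fun x => x % t = r)).eq_empty_or_nonempty with he | hne
    · rw [he]
      simpa using hB
    · exact h _ (Finset.filter_subset _ _) hne (class_sep S t r)
  rw [e1, e2]
  refine (Finset.sum_le_sum e3).trans ?_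
  rw [Finset.sum_add_distrib, ← Finset.mul_sum, Finset.sum_const, Finset.card_range,
    nsmul_eq_mul]

end H23

variable {J : ℕ}

/-- The defect of (H2) in the context `(w, q)`. -/
noncomputable def df2 (F : Fam 2 J) (i₀ : Fin 2) (A : F.Ω → Prop) (X w q l : ℕ)
    (z : F.Ω → Fin 2 → ℝ) (φ : F.Ω → ℝ) : ℝ :=
  CH (Pool.Agent.H49.Ent.cond F.p A True)
      (fun ω => ⌊(2 : ℝ) ^ X * nuv F i₀ w q l z φ ω⌋)
      (fun ω => (F.qlb w q l i₀ z ω, F.T ω)) -
    CH (Pool.Agent.H49.Ent.cond F.p A True)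
      (fun ω => ⌊(2 : ℝ) ^ X * nuv F i₀ w q l z φ ω⌋)
      (fun ω => (Vx F i₀ w q l X z ω, (F.qlb w q l i₀ z ω, F.T ω)))

/-- The defect of (H3') in the context `(w, q)`. -/
noncomputable def df3 (F : Fam 2 J) (i₀ : Fin 2) (A : F.Ω → Prop) (X w q l : ℕ)
    (z : F.Ω → Fin 2 → ℝ) : ℝ :=
  CH (Pool.Agent.H49.Ent.cond F.p A True)
      (fun ω => ⌊(2 : ℝ) ^ X * F.gd q l i₀ z ω i₀⌋)
      (fun ω => (F.qlb w q l i₀ z ω, F.T ω)) -
    CH (Pool.Agent.H49.Ent.cond F.p A True)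
      (fun ω => ⌊(2 : ℝ) ^ X * F.gd q l i₀ z ω i₀⌋)
      (fun ω => (⌊(2 : ℝ) ^ X * yv F i₀ w q l z ω⌋, (F.qlb w q l i₀ z ω, F.T ω)))

variable {F : Fam 2 J} {i₀ : Fin 2} {A : F.Ω → Prop} {f : (Fin 2 → ℤ) × (ℕ × F.ζ) → Fin 2 → ℝ}

theorem df2_nonneg (hQ : IsLaw (Pool.Agent.H49.Ent.cond F.p A True)) (X w q l : ℕ)
    (z : F.Ω → Fin 2 → ℝ) (φ : F.Ω → ℝ) : 0 ≤ df2 F i₀ A X w q l z φ := by
  have h : CH (Pool.Agent.H49.Ent.cond F.p A True)
      (fun ω => ⌊(2 : ℝ) ^ X * nuv F i₀ w q l z φ ω⌋)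
      (fun ω => (Vx F i₀ w q l X z ω, (F.qlb w q l i₀ z ω, F.T ω))) ≤
    CH (Pool.Agent.H49.Ent.cond F.p A True)
      (fun ω => ⌊(2 : ℝ) ^ X * nuv F i₀ w q l z φ ω⌋)
      (fun ω => (F.qlb w q l i₀ z ω, F.T ω)) :=
    CH_mono_cond hQ.nonneg (fun ω ω' _ _ h => (Prod.ext_iff.mp h).2)
  unfold df2
  linarith

theorem df3_nonneg (hQ : IsLaw (Pool.Agent.H49.Ent.cond F.p A True)) (X w q l : ℕ)
    (z : F.Ω → Fin 2 → ℝ) : 0 ≤ df3 F i₀ A X w q l z := by
  have h : CH (Pool.Agent.H49.Ent.cond F.p A True)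
      (fun ω => ⌊(2 : ℝ) ^ X * F.gd q l i₀ z ω i₀⌋)
      (fun ω => (⌊(2 : ℝ) ^ X * yv F i₀ w q l z ω⌋, (F.qlb w q l i₀ z ω, F.T ω))) ≤
    CH (Pool.Agent.H49.Ent.cond F.p A True)
      (fun ω => ⌊(2 : ℝ) ^ X * F.gd q l i₀ z ω i₀⌋)
      (fun ω => (F.qlb w q l i₀ z ω, F.T ω)) :=
    CH_mono_cond hQ.nonneg (fun ω ω' _ _ h => (Prod.ext_iff.mp h).2)
  unfold df3
  linarith

/-- The trivial bound of the defect of (H2). -/
theorem df2_le {w q l L X : ℕ} {z : F.Ω → Fin 2 → ℝ} {φ : F.Ω → ℝ}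
    (hQ : IsLaw (Pool.Agent.H49.Ent.cond F.p A True)) (hw : w ≤ J)
    (hW : Win F i₀ A f w l z) (hS : Slp F i₀ A f w q l L z φ) (hL : l ≤ L) :
    df2 F i₀ A X w q l z φ ≤ X * Real.log 2 + Real.log 43 := by
  have h1 := H2.nuv_full (X := X) hQ hw hW hS hL (fun ω => (F.qlb w q l i₀ z ω, F.T ω))
  have h2 := CH_nonneg hQ.nonneg (fun ω => ⌊(2 : ℝ) ^ X * nuv F i₀ w q l z φ ω⌋)
    (fun ω => (Vx F i₀ w q l X z ω, (F.qlb w q l i₀ z ω, F.T ω)))
  unfold df2
  linarith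

/-- The trivial bound of the defect of (H3'). -/
theorem df3_le {w q l X : ℕ} {z : F.Ω → Fin 2 → ℝ}
    (hQ : IsLaw (Pool.Agent.H49.Ent.cond F.p A True)) :
    df3 F i₀ A X w q l z ≤ X * Real.log 2 + Real.log 5 := by
  have key := Lab.CH_int_const hQ (fun ω => ⌊(2 : ℝ) ^ X * F.gd q l i₀ z ω i₀⌋)
    (fun ω => (F.qlb w q l i₀ z ω, F.T ω)) (c := 2 ^ X + 1) (by
      intro ω ω' hω hω' _
      have h1 := Lab.gd_mem F q l i₀ z ω i₀
      have h2 := Lab.gd_mem F q l i₀ z ω' i₀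
      refine Plk.floor_sub_lt ?_
      rw [← mul_sub, abs_mul, abs_of_pos (by positivity : (0 : ℝ) < 2 ^ X)]
      have h3 : |F.gd q l i₀ z ω i₀ - F.gd q l i₀ z ω' i₀| ≤ 1 := by
        rw [abs_le]
        constructor <;> linarith [h1.1, h1.2, h2.1, h2.2]
      calc (2 : ℝ) ^ X * |F.gd q l i₀ z ω i₀ - F.gd q l i₀ z ω' i₀| ≤ 2 ^ X * 1 :=
            mul_le_mul_of_nonneg_left h3 (by positivity)
        _ = 2 ^ X := by ring)
  have h2 := CH_nonneg hQ.nonneg (fun ω => ⌊(2 : ℝ) ^ X * F.gd q l i₀ z ω i₀⌋)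
    (fun ω => (⌊(2 : ℝ) ^ X * yv F i₀ w q l z ω⌋, (F.qlb w q l i₀ z ω, F.T ω)))
  have h3 : (1 : ℝ) ≤ 2 ^ X := one_le_pow₀ (by norm_num)
  have h4 : Real.log (2 * (2 ^ X + 1) + 1) ≤ Real.log (5 * 2 ^ X) :=
    Real.log_le_log (by positivity) (by linarith)
  rw [Real.log_mul (by norm_num) (by positivity), Real.log_pow] at h4
  unfold df3
  linarith

/-- **(H2) on a set of windows.** `W w`, `lam w`, `Q w` in bits. -/
theorem h2_sum : ∃ C : ℝ, 0 ≤ C ∧ ∀ (J : ℕ) (F : Fam 2 J) (i₀ : Fin 2) (A : F.Ω → Prop)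
    (f n : (Fin 2 → ℤ) × (ℕ × F.ζ) → Fin 2 → ℝ) (P X H t : ℕ) (S : Finset ℕ)
    (W Q lam L : ℕ → ℕ) (z : ℕ → F.Ω → Fin 2 → ℝ) (φ : ℕ → F.Ω → ℝ),
    IsLaw (Pool.Agent.H49.Ent.cond F.p A True) → Frm F i₀ A H f n → 0 < t → P ≤ J →
    (∀ w ∈ S, Win F i₀ A f (W w) (lam w) (z w) ∧
      Slp F i₀ A f (W w) (Q w) (lam w) (L w) (z w) (φ w) ∧
      Q w + W w + lam w = P ∧ lam w + X ≤ L w ∧ Q w + lam w ≤ H) →
    (∀ w ∈ S, ∀ w' ∈ S, w + t ≤ w' →
      W w + X ≤ W w' ∧ lam w + X ≤ lam w' ∧ lam w' + X ≤ L w) →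
    ∑ w ∈ S, df2 F i₀ A X (W w) (Q w) (lam w) (z w) (φ w) ≤
      t * (2 * (X * Real.log 2) + C) + C * S.card := by
  obtain ⟨C, hC⟩ := h2
  refine ⟨max C 0 + Real.log 43, by positivity, ?_⟩
  intro J F i₀ A f n P X H t S W Q lam L z φ hQ hF ht hPJ hS hsep
  have hC1 : C ≤ max C 0 := le_max_left _ _
  have hC0 : 0 ≤ max C 0 := le_max_right _ _
  have l2 : 0 ≤ Real.log 2 := Real.log_nonneg (by norm_num)
  have l43 : 0 ≤ Real.log 43 := Real.log_nonneg (by norm_num)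
  refine H23.sum_class _ S t ht (by positivity) ?_
  intro S' hS' hne hsp
  obtain ⟨w, h1, h2, h3⟩ := H23.enum_desc t S' hne hsp
  obtain ⟨K, hK⟩ : ∃ K, S'.card = K + 1 := ⟨S'.card - 1, by
    have := Finset.card_pos.2 hne
    omega⟩
  rw [← h3, hK, Finset.sum_range_succ]
  have k1 := hC J F i₀ A f n K P X H (fun j => W (w j)) (fun j => Q (w j)) (fun j => lam (w j))
    (fun j => L (w j)) (fun j => z (w j)) (fun j => φ (w j)) hQ hF
    (fun j _ => hS _ (hS' (h1 j))) (fun j hj => by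
      have e1 := hsep _ (hS' (h1 (j + 1))) _ (hS' (h1 j)) (h2 j (by omega))
      exact ⟨e1.1, e1.2.1, e1.2.2⟩) hPJ
  obtain ⟨b1, b2, b3, b4, b5⟩ := hS _ (hS' (h1 K))
  have k2 := df2_le (X := X) hQ (show W (w K) ≤ J by omega) b1 b2 (show lam (w K) ≤ L (w K) by omega)
  have k3 : ∑ j ∈ Finset.range K, df2 F i₀ A X (W (w j)) (Q (w j)) (lam (w j)) (z (w j))
      (φ (w j)) ≤ X * Real.log 2 + C * (K + 1) := k1
  have k4 : C * ((K : ℝ) + 1) ≤ max C 0 * (K + 1) :=
    mul_le_mul_of_nonneg_right hC1 (by positivity)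
  have k5 : 0 ≤ Real.log 43 * ((K : ℝ) + 1) := by positivity
  push_cast
  linarith

/-- **(H3') on a set of windows.** -/
theorem h3_sum (h3 : H3Stmt) : ∃ C : ℝ, 0 ≤ C ∧ ∀ (J : ℕ) (F : Fam 2 J) (i₀ : Fin 2)
    (A : F.Ω → Prop)
    (f n : (Fin 2 → ℤ) × (ℕ × F.ζ) → Fin 2 → ℝ) (q X H t : ℕ) (S : Finset ℕ)
    (W lam : ℕ → ℕ) (z : ℕ → F.Ω → Fin 2 → ℝ),
    IsLaw (Pool.Agent.H49.Ent.cond F.p A True) → Frm F i₀ A H f n → 0 < t →
    (∀ w ∈ S, Win F i₀ A f (W w) (lam w) (z w) ∧ q + W w + lam w ≤ J ∧ q + lam w ≤ H) →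
    (∀ w ∈ S, ∀ w' ∈ S, w + t ≤ w' → W w + X ≤ W w' ∧ lam w ≤ lam w') →
    ∑ w ∈ S, df3 F i₀ A X (W w) q (lam w) (z w) ≤
      t * (2 * (X * Real.log 2) + C) + C * S.card := by
  obtain ⟨C, hC⟩ := h3
  refine ⟨max C 0 + Real.log 5, by positivity, ?_⟩
  intro J F i₀ A f n q X H t S W lam z hQ hF ht hS hsep
  have hC1 : C ≤ max C 0 := le_max_left _ _
  have hC0 : 0 ≤ max C 0 := le_max_right _ _
  have l2 : 0 ≤ Real.log 2 := Real.log_nonneg (by norm_num)
  have l5 : 0 ≤ Real.log 5 := Real.log_nonneg (by norm_num)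
  refine H23.sum_class _ S t ht (by positivity) ?_
  intro S' hS' hne hsp
  obtain ⟨w, h1, h2, h3⟩ := H23.enum_asc t S' hne hsp
  obtain ⟨K, hK⟩ : ∃ K, S'.card = K + 1 := ⟨S'.card - 1, by
    have := Finset.card_pos.2 hne
    omega⟩
  rw [← h3, hK, Finset.sum_range_succ]
  have k1 := hC J F i₀ A f n K q X H (fun j => W (w j)) (fun j => lam (w j))
    (fun j => z (w j)) hQ hF
    (fun j _ => hS _ (hS' (h1 j))) (fun j hj =>
      hsep _ (hS' (h1 j)) _ (hS' (h1 (j + 1))) (h2 j (by omega)))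
  have k2 := df3_le (F := F) (i₀ := i₀) (A := A) (X := X) (w := W (w K)) (q := q)
    (l := lam (w K)) (z := z (w K)) hQ
  have k3 : ∑ j ∈ Finset.range K, df3 F i₀ A X (W (w j)) q (lam (w j)) (z (w j)) ≤
      X * Real.log 2 + C * (K + 1) := k1
  have k4 : C * ((K : ℝ) + 1) ≤ max C 0 * (K + 1) :=
    mul_le_mul_of_nonneg_right hC1 (by positivity)
  have k5 : 0 ≤ Real.log 5 * ((K : ℝ) + 1) := by positivity
  push_cast
  linarith

/-- **The choice of one context** `(w, q)`, `w ∈ Wn`, `q ∈ Act` (mesh numbers), good for both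
chains. -/
theorem h23_choice (h3 : H3Stmt) : ∃ C : ℝ, 0 ≤ C ∧ ∀ (J : ℕ) (F : Fam 2 J) (i₀ : Fin 2)
    (A : F.Ω → Prop)
    (f n : (Fin 2 → ℤ) × (ℕ × F.ζ) → Fin 2 → ℝ) (u X H t : ℕ) (Wn Act Pn : Finset ℕ)
    (lam : ℕ → ℕ) (L : ℕ → ℕ → ℕ) (z : ℕ → F.Ω → Fin 2 → ℝ) (φ : ℕ → ℕ → F.Ω → ℝ),
    IsLaw (Pool.Agent.H49.Ent.cond F.p A True) → Frm F i₀ A H f n → 0 < t →
    Wn.Nonempty → Act.Nonempty →
    (∀ w ∈ Wn, Win F i₀ A f (w * u) (lam w * u) (z w)) →
    (∀ w ∈ Wn, ∀ q ∈ Act,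
      Slp F i₀ A f (w * u) (q * u) (lam w * u) (L w q) (z w) (φ w q) ∧
      q + (w + lam w) ∈ Pn ∧ (q + (w + lam w)) * u ≤ J ∧ lam w * u + X ≤ L w q ∧
      (q + lam w) * u ≤ H) →
    (∀ w ∈ Wn, ∀ w' ∈ Wn, w + t ≤ w' → w * u + X ≤ w' * u ∧
      lam w * u + X ≤ lam w' * u ∧ ∀ q ∈ Act, lam w' * u + X ≤ L w q) →
    ∃ q ∈ Act, ∃ w ∈ Wn,
      (df2 F i₀ A X (w * u) (q * u) (lam w * u) (z w) (φ w q) +
        df3 F i₀ A X (w * u) (q * u) (lam w * u) (z w)) * (Act.card * Wn.card) ≤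
      ((Pn.card : ℝ) + Act.card) * (t * (2 * (X * Real.log 2) + C) + C * Wn.card) := by
  classical
  obtain ⟨C₂, hC₂, H2⟩ := h2_sum
  obtain ⟨C₃, hC₃, H3⟩ := h3_sum h3
  refine ⟨max C₂ C₃, le_max_of_le_left hC₂, ?_⟩
  intro J F i₀ A f n u X H t Wn Act Pn lam L z φ hQ hF ht hWn hAct hW hS hsep
  have l2 : 0 ≤ Real.log 2 := Real.log_nonneg (by norm_num)
  have m2 : C₂ ≤ max C₂ C₃ := le_max_left _ _
  have m3 : C₃ ≤ max C₂ C₃ := le_max_right _ _
  obtain ⟨C, hC⟩ : ∃ C, C = max C₂ C₃ := ⟨_, rfl⟩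
  rw [← hC] at m2 m3 ⊢
  have hC0 : 0 ≤ C := hC₂.trans m2
  obtain ⟨S₁, hS₁⟩ : ∃ S₁ : ℝ, S₁ = t * (2 * (X * Real.log 2) + C) + C * Wn.card := ⟨_, rfl⟩
  have hS₁0 : 0 ≤ S₁ := by rw [hS₁]; positivity
  obtain ⟨q, hq, w, hw, hqw⟩ := OCH.fub Wn Pn Act (fun w => w + lam w)
    (fun w P => if w + lam w ≤ P ∧ P - (w + lam w) ∈ Act then
      df2 F i₀ A X (w * u) ((P - (w + lam w)) * u) (lam w * u) (z w) (φ w (P - (w + lam w)))
      else 0)
    (fun w q => df3 F i₀ A X (w * u) (q * u) (lam w * u) (z w)) S₁ S₁ 1 1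
    (by
      intro w P
      split_ifs with hc
      · exact df2_nonneg hQ _ _ _ _ _ _
      · exact le_rfl)
    zero_le_one zero_le_one hWn hAct
    (fun w hw q hq => (hS w hw q hq).2.1)
    (by
      intro P _
      rw [← Finset.sum_filter]
      rcases (Wn.filter fun w => w + lam w ≤ P ∧ P - (w + lam w) ∈ Act).eq_empty_or_nonempty
        with he | ⟨w₀, hw₀⟩
      · rw [he, Finset.sum_empty]
        exact hS₁0
      · have hPJ : P * u ≤ J := by
          obtain ⟨c1, c2, c3⟩ := Finset.mem_filter.1 hw₀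
          have := (hS w₀ c1 _ c3).2.2.1
          rwa [Nat.sub_add_cancel c2] at this
        have key := H2 J F i₀ A f n (P * u) X H t
          (Wn.filter fun w => w + lam w ≤ P ∧ P - (w + lam w) ∈ Act) (fun w => w * u)
          (fun w => (P - (w + lam w)) * u) (fun w => lam w * u)
          (fun w => L w (P - (w + lam w))) z (fun w => φ w (P - (w + lam w))) hQ hF ht hPJ
          (by
            intro w hw
            obtain ⟨c1, c2, c3⟩ := Finset.mem_filter.1 hw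
            obtain ⟨d1, d2, d3, d4, d5⟩ := hS w c1 _ c3
            refine ⟨hW w c1, d1, ?_, d4, ?_⟩
            · rw [← Nat.add_mul, ← Nat.add_mul]
              congr 1
              omega
            · rw [← Nat.add_mul]
              exact d5)
          (by
            intro w hw w' hw' hww
            obtain ⟨c1, c2, c3⟩ := Finset.mem_filter.1 hw
            obtain ⟨c1', c2', c3'⟩ := Finset.mem_filter.1 hw'
            obtain ⟨e1, e2, e3⟩ := hsep w c1 w' c1' hww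
            exact ⟨e1, e2, e3 _ c3⟩)
        refine key.trans ?_
        have hcard : (((Wn.filter fun w => w + lam w ≤ P ∧ P - (w + lam w) ∈ Act).card : ℕ) : ℝ) ≤
            Wn.card := by exact_mod_cast Finset.card_filter_le _ _
        rw [hS₁]
        have g1 : (t : ℝ) * (2 * (X * Real.log 2) + C₂) ≤ t * (2 * (X * Real.log 2) + C) :=
          mul_le_mul_of_nonneg_left (by linarith) (Nat.cast_nonneg _)
        have g2 : C₂ * (((Wn.filter fun w => w + lam w ≤ P ∧ P - (w + lam w) ∈ Act).card : ℕ) : ℝ)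
            ≤ C * Wn.card := mul_le_mul m2 hcard (Nat.cast_nonneg _) hC0
        linarith)
    (by
      intro q hq
      have key := H3 J F i₀ A f n (q * u) X H t Wn (fun w => w * u) (fun w => lam w * u) z hQ hF
        ht
        (by
          intro w hw
          obtain ⟨d1, d2, d3, d4, d5⟩ := hS w hw q hq
          refine ⟨hW w hw, ?_, ?_⟩
          · rw [← Nat.add_mul, ← Nat.add_mul, Nat.add_assoc]
            exact d3
          · rw [← Nat.add_mul]
            exact d5)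
        (by
          intro w hw w' hw' hww
          obtain ⟨e1, e2, e3⟩ := hsep w hw w' hw' hww
          exact ⟨e1, by omega⟩)
      refine key.trans ?_
      rw [hS₁]
      have g1 : (t : ℝ) * (2 * (X * Real.log 2) + C₃) ≤ t * (2 * (X * Real.log 2) + C) :=
        mul_le_mul_of_nonneg_left (by linarith) (Nat.cast_nonneg _)
      have g2 : C₃ * (Wn.card : ℝ) ≤ C * Wn.card :=
        mul_le_mul_of_nonneg_right m3 (Nat.cast_nonneg _)
      linarith)
  refine ⟨q, hq, w, hw, ?_⟩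
  have e1 : w + lam w ≤ q + (w + lam w) ∧ q + (w + lam w) - (w + lam w) ∈ Act := by
    refine ⟨by omega, ?_⟩
    rw [Nat.add_sub_cancel]
    exact hq
  rw [if_pos e1, Nat.add_sub_cancel, one_mul, one_mul, one_mul, one_mul] at hqw
  rw [← hS₁]
  exact hqw.trans (le_of_eq (by ring))

/-- The choice with numbers: the rows are at most `K` times as many as the active blocks, the step
is at most `ε` times the number of windows. -/
theorem h23_choice' (h3 : H3Stmt) : ∃ C : ℝ, 0 ≤ C ∧ ∀ (J : ℕ) (F : Fam 2 J) (i₀ : Fin 2)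
    (A : F.Ω → Prop)
    (f n : (Fin 2 → ℤ) × (ℕ × F.ζ) → Fin 2 → ℝ) (u X H t : ℕ) (Wn Act Pn : Finset ℕ)
    (lam : ℕ → ℕ) (L : ℕ → ℕ → ℕ) (z : ℕ → F.Ω → Fin 2 → ℝ) (φ : ℕ → ℕ → F.Ω → ℝ) (K ε : ℝ),
    IsLaw (Pool.Agent.H49.Ent.cond F.p A True) → Frm F i₀ A H f n → 0 < t →
    Wn.Nonempty → Act.Nonempty →
    (∀ w ∈ Wn, Win F i₀ A f (w * u) (lam w * u) (z w)) →
    (∀ w ∈ Wn, ∀ q ∈ Act,
      Slp F i₀ A f (w * u) (q * u) (lam w * u) (L w q) (z w) (φ w q) ∧
      q + (w + lam w) ∈ Pn ∧ (q + (w + lam w)) * u ≤ J ∧ lam w * u + X ≤ L w q ∧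
      (q + lam w) * u ≤ H) →
    (∀ w ∈ Wn, ∀ w' ∈ Wn, w + t ≤ w' → w * u + X ≤ w' * u ∧
      lam w * u + X ≤ lam w' * u ∧ ∀ q ∈ Act, lam w' * u + X ≤ L w q) →
    (Pn.card : ℝ) ≤ K * Act.card → (t : ℝ) ≤ ε * Wn.card →
    ∃ q ∈ Act, ∃ w ∈ Wn,
      df2 F i₀ A X (w * u) (q * u) (lam w * u) (z w) (φ w q) +
        df3 F i₀ A X (w * u) (q * u) (lam w * u) (z w) ≤
      (K + 1) * (ε * (2 * (X * Real.log 2) + C) + C) := by
  obtain ⟨C, hC, H⟩ := h23_choice h3
  refine ⟨C, hC, ?_⟩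
  intro J F i₀ A f n u X H' t Wn Act Pn lam L z φ K ε hQ hF ht hWn hAct hW hS hsep hK hε
  have l2 : 0 ≤ Real.log 2 := Real.log_nonneg (by norm_num)
  obtain ⟨q, hq, w, hw, hqw⟩ := H J F i₀ A f n u X H' t Wn Act Pn lam L z φ hQ hF ht hWn hAct hW
    hS hsep
  refine ⟨q, hq, w, hw, ?_⟩
  have a1 : (0 : ℝ) < Act.card := by exact_mod_cast Finset.card_pos.2 hAct
  have a2 : (0 : ℝ) < Wn.card := by exact_mod_cast Finset.card_pos.2 hWn
  have a3 : 0 ≤ 2 * (X * Real.log 2) + C := by positivity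
  have b1 : (t : ℝ) * (2 * (X * Real.log 2) + C) + C * Wn.card ≤
      Wn.card * (ε * (2 * (X * Real.log 2) + C) + C) := by
    have := mul_le_mul_of_nonneg_right hε a3
    nlinarith
  have b0 : 0 ≤ (t : ℝ) * (2 * (X * Real.log 2) + C) + C * Wn.card := by positivity
  have b2 : (Pn.card : ℝ) + Act.card ≤ (K + 1) * Act.card := by linarith
  have b3 : ((Pn.card : ℝ) + Act.card) * (t * (2 * (X * Real.log 2) + C) + C * Wn.card) ≤
      ((K + 1) * Act.card) * (Wn.card * (ε * (2 * (X * Real.log 2) + C) + C)) :=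
    mul_le_mul b2 b1 b0 (by
      have : (0 : ℝ) ≤ (Pn.card : ℝ) + Act.card := by positivity
      linarith)
  have b4 : (df2 F i₀ A X (w * u) (q * u) (lam w * u) (z w) (φ w q) +
        df3 F i₀ A X (w * u) (q * u) (lam w * u) (z w)) * (Act.card * Wn.card) ≤
      ((K + 1) * (ε * (2 * (X * Real.log 2) + C) + C)) * (Act.card * Wn.card) := by
    refine (hqw.trans b3).trans (le_of_eq ?_)
    ring
  exact le_of_mul_le_mul_right b4 (mul_pos a1 a2)

end Pool.K2S
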