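import Pool.Agent.H54.K2S.Lab2
import Pool.Agent.H13.K2S.OcFam

/-!
# Fixed rows, decreasing windows: the row block is independent of the line data

`H2Stmt`: the contexts `(w j, q j)` with `q j + w j + l j = P` are nested given the exact time, and
the row block `(P, P + X]` in the moving frame is the same variable in all of them, up to a bounded
number of values.
-/

set_option autoImplicit false

namespace Pool.K2S

open Finset Real
open Pool.Agent.H49.Ent Pool.Agent.H32.Dense Pool.STK Pool.KA Pool.KSAT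

namespace H2

variable {J : ℕ}

theorem other_ne (i₀ : Fin 2) : (1 - i₀ : Fin 2) ≠ i₀ := by
  fin_cases i₀ <;> decide

theorem eq_other {i₀ j : Fin 2} (h : j ≠ i₀) : j = 1 - i₀ := by
  revert h
  fin_cases i₀ <;> fin_cases j <;> decide

theorem inv_le {x y : ℕ} (h : x ≤ y) {c : ℝ} (hc : 0 ≤ c) : c / (2 : ℝ) ^ y ≤ c / 2 ^ x :=
  div_le_div_of_nonneg_left hc (by positivity) (pow_le_pow_right₀ (by norm_num) h)

theorem pos_A {F : Fam 2 J} {A : F.Ω → Prop} {ω : F.Ω}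
    (h : 0 < Pool.Agent.H49.Ent.cond F.p A True ω) : A ω := by
  have := ((cond_pos_iff F.isLaw.nonneg A True ω).1 h).2
  simpa using this

/-- The chain rule for one step. -/
theorem chain_step {Ω S T U V V' : Type} [Fintype Ω] {p : Ω → ℝ} (hp : ∀ ω, 0 ≤ p ω)
    (n : Ω → S) (n' : Ω → T) (V₀ : Ω → U) (G : Ω → V) (G' : Ω → V') {c₁ c₂ : ℝ}
    (h1 : CH p (fun ω => (V₀ ω, G ω)) G' ≤ c₁)
    (h2 : CH p n' (fun ω => (n ω, ((V₀ ω, G ω), G' ω))) ≤ c₂) :
    CH p n' G' ≤ CH p n (fun ω => (V₀ ω, G ω)) + c₁ + c₂ := by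
  have a1 := CH_le_add hp n' (fun ω => (V₀ ω, G ω)) G'
  have a2 := CH_le_add hp n' n (fun ω => ((V₀ ω, G ω), G' ω))
  have a3 : CH p n (fun ω => ((V₀ ω, G ω), G' ω)) ≤ CH p n (fun ω => (V₀ ω, G ω)) :=
    CH_mono_cond hp (fun ω ω' _ _ h => (Prod.ext_iff.mp h).1)
  linarith only [h1, h2, a1, a2, a3]

/-- The row variable in terms of the variable of `Lab`. -/
theorem nuv_bridge (F : Fam 2 J) (i₀ : Fin 2) {w : ℕ} (hw : w ≤ J) (q l : ℕ)
    (z : F.Ω → Fin 2 → ℝ) (φ : F.Ω → ℝ) (ω : F.Ω) :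
    nuv F i₀ w q l z φ ω =
      F.nuv w q l i₀ z (fun o j => 2 ^ l * (φ o - z o j)) ω (1 - i₀) := by
  unfold nuv Fam.nuv
  rw [Lab.tw_eq F hw ω]

variable {F : Fam 2 J} {i₀ : Fin 2} {A : F.Ω → Prop} {f : (Fin 2 → ℤ) × (ℕ × F.ζ) → Fin 2 → ℝ}

/-- The slope and the frame of the window. -/
theorem slp_win {w q l L : ℕ} {z : F.Ω → Fin 2 → ℝ} {φ : F.Ω → ℝ} (hW : Win F i₀ A f w l z)
    (hS : Slp F i₀ A f w q l L z φ) (hL : l ≤ L) {ω : F.Ω} (hω : A ω) :
    |φ ω - z ω (1 - i₀)| ≤ 4 / 2 ^ l := by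
  have h1 := hW.cl ω hω (1 - i₀) (other_ne i₀)
  have h2 := hS.2 ω hω
  have h3 := inv_le hL (zero_le_two (α := ℝ))
  have e : (4 : ℝ) / 2 ^ l = 2 / 2 ^ l + 2 / 2 ^ l := by ring
  rw [e]
  rw [abs_le] at h1 h2 ⊢
  constructor <;> linarith only [h1, h2, h3, h1.1, h1.2, h2.1, h2.2]

/-- The range of the row variable. -/
theorem nuv_range {w q l L : ℕ} {z : F.Ω → Fin 2 → ℝ} {φ : F.Ω → ℝ} (hw : w ≤ J)
    (hW : Win F i₀ A f w l z) (hS : Slp F i₀ A f w q l L z φ) (hL : l ≤ L) {ω : F.Ω}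
    (hω : A ω) : |nuv F i₀ w q l z φ ω| ≤ 10 := by
  have h1 := slp_win hW hS hL hω
  have u0 := Lab.gu_mem F w (q + w) l i₀ z ω (1 - i₀)
  have u1 := Lab.gu_mem F w (q + w) l i₀ z ω i₀
  have d0 := Lab.gd_mem F q l i₀ z ω (1 - i₀)
  have d1 := Lab.gd_mem F q l i₀ z ω i₀
  have t0 := Lab.wt_mem F w ω
  rw [← Lab.tw_eq F hw ω] at t0
  unfold nuv
  obtain ⟨s, hs⟩ : ∃ s, s = 2 ^ l * (φ ω - z ω (1 - i₀)) := ⟨_, rfl⟩
  have hs4 : |s| ≤ 4 := by
    rw [hs, abs_mul, abs_of_pos (by positivity : (0 : ℝ) < 2 ^ l)]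
    calc (2 : ℝ) ^ l * |φ ω - z ω (1 - i₀)| ≤ 2 ^ l * (4 / 2 ^ l) :=
          mul_le_mul_of_nonneg_left h1 (by positivity)
      _ = 4 := by field_simp
  rw [← hs]
  have a1 : 0 ≤ F.tw w ω * F.gd q l i₀ z ω (1 - i₀) := mul_nonneg t0.1 d0.1
  have a2 : F.tw w ω * F.gd q l i₀ z ω (1 - i₀) ≤ 1 :=
    mul_le_one₀ t0.2.le d0.1 d0.2.le
  have a3 : 0 ≤ F.tw w ω * F.gd q l i₀ z ω i₀ := mul_nonneg t0.1 d1.1
  have a4 : F.tw w ω * F.gd q l i₀ z ω i₀ ≤ 1 := mul_le_one₀ t0.2.le d1.1 d1.2.le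
  have a5 : |s * (F.gu w (q + w) l i₀ z ω i₀ + F.tw w ω * F.gd q l i₀ z ω i₀)| ≤ 4 * 2 := by
    rw [abs_mul]
    refine mul_le_mul hs4 ?_ (abs_nonneg _) (by norm_num)
    rw [abs_le]
    constructor <;> linarith [u1.1, u1.2]
  rw [abs_le] at a5 ⊢
  constructor <;> linarith [a5.1, a5.2, u0.1, u0.2]

/-- The block has at most the full entropy. -/
theorem nuv_full {w q l L X : ℕ} {z : F.Ω → Fin 2 → ℝ} {φ : F.Ω → ℝ} {S : Type}
    (hQ : IsLaw (Pool.Agent.H49.Ent.cond F.p A True)) (hw : w ≤ J)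
    (hW : Win F i₀ A f w l z) (hS : Slp F i₀ A f w q l L z φ) (hL : l ≤ L) (G : F.Ω → S) :
    CH (Pool.Agent.H49.Ent.cond F.p A True) (fun ω => ⌊(2 : ℝ) ^ X * nuv F i₀ w q l z φ ω⌋) G ≤
      X * Real.log 2 + Real.log 43 := by
  have key := Lab.CH_int_const hQ (fun ω => ⌊(2 : ℝ) ^ X * nuv F i₀ w q l z φ ω⌋) G
    (c := 20 * 2 ^ X + 1) (by
      intro ω ω' hω hω' _
      have h1 := nuv_range hw hW hS hL (pos_A hω)
      have h2 := nuv_range hw hW hS hL (pos_A hω')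
      refine Plk.floor_sub_lt ?_
      rw [← mul_sub, abs_mul, abs_of_pos (by positivity : (0 : ℝ) < 2 ^ X)]
      have h3 : |nuv F i₀ w q l z φ ω - nuv F i₀ w q l z φ ω'| ≤ 20 := by
        rw [abs_le] at h1 h2 ⊢
        constructor <;> linarith only [h1, h2, h1.1, h1.2, h2.1, h2.2]
      calc (2 : ℝ) ^ X * |nuv F i₀ w q l z φ ω - nuv F i₀ w q l z φ ω'| ≤ 2 ^ X * 20 :=
            mul_le_mul_of_nonneg_left h3 (by positivity)
        _ = 20 * 2 ^ X := by ring)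
  refine key.trans ?_
  have h1 : (1 : ℝ) ≤ 2 ^ X := one_le_pow₀ (by norm_num)
  have h2 : Real.log (2 * (20 * 2 ^ X + 1) + 1) ≤ Real.log (43 * 2 ^ X) :=
    Real.log_le_log (by positivity) (by linarith only [h1])
  rw [Real.log_mul (by norm_num) (by positivity), Real.log_pow] at h2
  linarith only [h2]

/-- **One step.** -/
theorem step {w q l L w' q' l' L' X : ℕ} {z z' : F.Ω → Fin 2 → ℝ} {φ φ' : F.Ω → ℝ}
    (hQ : IsLaw (Pool.Agent.H49.Ent.cond F.p A True))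
    (hW : Win F i₀ A f w l z) (hS : Slp F i₀ A f w q l L z φ)
    (hW' : Win F i₀ A f w' l' z') (hS' : Slp F i₀ A f w' q' l' L' z' φ')
    (hP : q + w + l = q' + w' + l') (hPJ : q + w + l ≤ J) (hL : l + X ≤ L) (hw : w' + X ≤ w)
    (hl : l' + X ≤ l) (hL' : l + X ≤ L') :
    CH (Pool.Agent.H49.Ent.cond F.p A True)
        (fun ω => ⌊(2 : ℝ) ^ X * nuv F i₀ w' q' l' z' φ' ω⌋)
        (fun ω => (F.qlb w' q' l' i₀ z' ω, F.T ω)) ≤
      CH (Pool.Agent.H49.Ent.cond F.p A True)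
        (fun ω => ⌊(2 : ℝ) ^ X * nuv F i₀ w q l z φ ω⌋)
        (fun ω => (Vx F i₀ w q l X z ω, (F.qlb w q l i₀ z ω, F.T ω))) +
      (Real.log 19 + 2 * ((2 : ℕ) * Real.log 23) + 3 * Real.log 23) + Real.log 21 := by
  have h0 := hQ.nonneg
  have hwJ : w ≤ J := by omega
  have hwJ' : w' ≤ J := by omega
  -- the frames of the two windows
  have hzz : ∀ ω, 0 < Pool.Agent.H49.Ent.cond F.p A True ω → ∀ j,
      2 ^ l' * |z ω j - z' ω j| ≤ 4 := by
    intro ω hω j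
    have hA := pos_A hω
    by_cases hj : j = i₀
    · rw [hj, hW.z0, hW'.z0, sub_self, abs_zero, mul_zero]
      norm_num
    · have h1 := hW.cl ω hA j hj
      have h2 := hW'.cl ω hA j hj
      have h3 := inv_le (x := l') (y := l) (by omega) (zero_le_two (α := ℝ))
      have h4 : |z ω j - z' ω j| ≤ 4 / 2 ^ l' := by
        have e : (4 : ℝ) / 2 ^ l' = 2 / 2 ^ l' + 2 / 2 ^ l' := by ring
        rw [e]
        rw [abs_le] at h1 h2 ⊢
        constructor <;> linarith only [h1, h2, h3, h1.1, h1.2, h2.1, h2.2]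
      calc (2 : ℝ) ^ l' * |z ω j - z' ω j| ≤ 2 ^ l' * (4 / 2 ^ l') :=
            mul_le_mul_of_nonneg_left h4 (by positivity)
        _ = 4 := by field_simp
  obtain ⟨g, hg⟩ := hS.1
  obtain ⟨g', hg'⟩ := hS'.1
  -- the frame of the shorter window
  have c1 : CH (Pool.Agent.H49.Ent.cond F.p A True) z
      (fun ω => (F.qlb w' q' l' i₀ z' ω, F.T ω)) ≤ Real.log 19 := by
    have k1 := Lab.CH_int_const hQ (fun ω => ⌊(2 : ℝ) ^ l * z ω (1 - i₀)⌋)
      (fun ω => (F.qlb w' q' l' i₀ z' ω, F.T ω)) (c := 9) (by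
        intro ω ω' hω hω' h
        have hA := pos_A hω
        have hA' := pos_A hω'
        have e1 : φ' ω = φ' ω' := by rw [hg', hg', h]
        have h1 := hW.cl ω hA (1 - i₀) (other_ne i₀)
        have h2 := hW.cl ω' hA' (1 - i₀) (other_ne i₀)
        have h3 := hS'.2 ω hA
        have h4 := hS'.2 ω' hA'
        have h5 := inv_le (x := l) (y := L') (by omega) (zero_le_two (α := ℝ))
        have h6 : |z ω (1 - i₀) - z ω' (1 - i₀)| ≤ 8 / 2 ^ l := by
          have e : (8 : ℝ) / 2 ^ l = 2 / 2 ^ l + 2 / 2 ^ l + 2 / 2 ^ l + 2 / 2 ^ l := by ring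
          rw [e]
          rw [e1] at h3
          rw [abs_le] at h1 h2 h3 h4 ⊢
          constructor <;> linarith only [h1, h2, h3, h4, h5, h1.1, h1.2, h2.1, h2.2, h3.1, h3.2, h4.1, h4.2]
        have h7 : |(2 : ℝ) ^ l * z ω (1 - i₀) - 2 ^ l * z ω' (1 - i₀)| ≤ 8 := by
          rw [← mul_sub, abs_mul, abs_of_pos (by positivity : (0 : ℝ) < 2 ^ l)]
          calc (2 : ℝ) ^ l * |z ω (1 - i₀) - z ω' (1 - i₀)| ≤ 2 ^ l * (8 / 2 ^ l) :=
                mul_le_mul_of_nonneg_left h6 (by positivity)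
            _ = 8 := by field_simp
        have := Plk.floor_sub_lt h7
        linarith only [this])
    have k2 : CH (Pool.Agent.H49.Ent.cond F.p A True) z
        (fun ω => (F.qlb w' q' l' i₀ z' ω, F.T ω)) ≤
        CH (Pool.Agent.H49.Ent.cond F.p A True) (fun ω => ⌊(2 : ℝ) ^ l * z ω (1 - i₀)⌋)
          (fun ω => (F.qlb w' q' l' i₀ z' ω, F.T ω)) := by
      refine CH_mono_left h0 ?_
      intro ω ω' _ _ h
      have h1 : ⌊(2 : ℝ) ^ l * z ω (1 - i₀)⌋ = ⌊(2 : ℝ) ^ l * z ω' (1 - i₀)⌋ :=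
        (Prod.ext_iff.mp h).1
      obtain ⟨k, hk⟩ := hW.gr ω (1 - i₀)
      obtain ⟨k', hk'⟩ := hW.gr ω' (1 - i₀)
      have e1 : (2 : ℝ) ^ l * z ω (1 - i₀) = k := by
        rw [hk]
        field_simp
      have e2 : (2 : ℝ) ^ l * z ω' (1 - i₀) = k' := by
        rw [hk']
        field_simp
      rw [e1, e2, Int.floor_intCast, Int.floor_intCast] at h1
      funext j
      by_cases hj : j = i₀
      · rw [hj, hW.z0, hW.z0]
      · rw [eq_other hj, hk, hk', h1]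
    refine (k2.trans k1).trans (Real.log_le_log (by norm_num) (by norm_num))
  -- the label
  have c2 : CH (Pool.Agent.H49.Ent.cond F.p A True) (F.qlb w q l i₀ z)
      (fun ω => (z ω, (F.qlb w' q' l' i₀ z' ω, F.T ω))) ≤ 2 * ((2 : ℕ) * Real.log 23) := by
    have := Lab.CH_qlb_rows (F := F) (i0 := i₀) (C := 4) hQ hwJ (w' := w') (q' := q')
      (lam' := l') (w := w) (q := q) (lam := l) (z := z) (z' := z') (by omega) (by omega)
      (by omega) (by norm_num) hzz (fun ω => (z ω, (F.qlb w' q' l' i₀ z' ω, F.T ω)))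
      (fun ω ω' _ _ h => by
        have h1 := Prod.ext_iff.mp h
        have h2 := Prod.ext_iff.mp h1.2
        exact ⟨h2.1, Lab.T1_of_T h2.2, h1.1⟩)
    refine this.trans (le_of_eq ?_)
    norm_num
  -- the line data
  have c3 : CH (Pool.Agent.H49.Ent.cond F.p A True) (Vx F i₀ w q l X z)
      (fun ω => (F.qlb w q l i₀ z ω, (z ω, (F.qlb w' q' l' i₀ z' ω, F.T ω)))) ≤
      3 * Real.log 23 := by
    obtain ⟨W, hWd⟩ : ∃ W : F.Ω → _, W = fun ω => (F.qlb w q l i₀ z ω, (z ω,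
      (F.qlb w' q' l' i₀ z' ω, F.T ω))) := ⟨_, rfl⟩
    rw [← hWd]
    have hdet : ∀ ω ω', W ω = W ω' → F.qlb w q l i₀ z ω = F.qlb w q l i₀ z ω' ∧ z ω = z ω' ∧
        F.qlb w' q' l' i₀ z' ω = F.qlb w' q' l' i₀ z' ω' ∧ F.T ω = F.T ω' := by
      intro ω ω' h
      rw [hWd] at h
      have h1 := Prod.ext_iff.mp h
      have h2 := Prod.ext_iff.mp h1.2
      have h3 := Prod.ext_iff.mp h2.2
      exact ⟨h1.1, h2.1, h3.1, h3.2⟩
    have b1 : CH (Pool.Agent.H49.Ent.cond F.p A True)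
        (fun ω => ⌊(2 : ℝ) ^ X * F.gu w (q + w) l i₀ z ω i₀⌋) W ≤ Real.log 23 := by
      have k1 := Lab.CH_int_const hQ (fun ω => ⌊(2 : ℝ) ^ X * F.gu w (q + w) l i₀ z ω i₀⌋) W
        (c := 11) (by
          intro ω ω' hω hω' h
          obtain ⟨e1, e2, e3, e4⟩ := hdet ω ω' h
          obtain ⟨_, _, e5, _, _⟩ := Lab.glb_ext e1
          have k1 := Lab.fl_gu F w (q + w) l X i₀ z ω i₀
          have k2 := Lab.fl_gu F w (q + w) l X i₀ z ω' i₀
          have k3 : ⌊(2 : ℝ) ^ X * F.gu w (q + w) l i₀ z ω i₀⌋ -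
              ⌊(2 : ℝ) ^ X * F.gu w (q + w) l i₀ z ω' i₀⌋ =
              F.gps w (q + w + X) l i₀ z ω i₀ - F.gps w (q + w + X) l i₀ z ω' i₀ := by
            have k4 : fl X (F.gu w (q + w) l i₀ z ω) i₀ - fl X (F.gu w (q + w) l i₀ z ω') i₀ =
              F.gps w (q + w + X) l i₀ z ω i₀ - F.gps w (q + w + X) l i₀ z ω' i₀ := by
              rw [k1, k2, e5]
              ring
            exact k4
          rw [k3]
          have hs : |(F.T1 w ω : ℝ) / 2 ^ w - (F.T1 w' ω : ℝ) / 2 ^ w'| ≤ 1 / 2 ^ w' :=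
            Lab.time_near F hwJ' hwJ (min_eq_left (by omega)).symm ω
          have key := Lab.near_pos_W (F := F) (s := (F.T1 w ω : ℝ) / 2 ^ w) (k := q' + w')
            (a2 := q + w + X) e3 hs le_rfl le_rfl (by omega)
          have x1 : F.xa ((F.T1 w ω : ℝ) / 2 ^ w) ω = F.x1 w ω := rfl
          have x2 : F.xa ((F.T1 w ω : ℝ) / 2 ^ w) ω' = F.x1 w ω' := by
            rw [Lab.T1_of_T e4]
            rfl
          rw [x1, x2] at key
          have k5 := Plk.floor_sub_lt key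
          have y1 : ∀ o : F.Ω, F.gps w (q + w + X) l i₀ z o i₀ =
              ⌊(2 : ℝ) ^ (q + w + X) * F.x1 w o i₀⌋ := by
            intro o
            change ⌊(2 : ℝ) ^ (q + w + X) * pco l i₀ (z o) (F.x1 w o) i₀⌋ = _
            rw [Kin.pco_chart]
          rw [y1, y1]
          linarith only [k5])
      refine k1.trans (le_of_eq (by norm_num))
    have b2 : CH (Pool.Agent.H49.Ent.cond F.p A True)
        (fun ω => ⌊(2 : ℝ) ^ X * F.gd q l i₀ z ω i₀⌋) W ≤ Real.log 23 := by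
      have k1 := Lab.CH_int_const hQ (fun ω => ⌊(2 : ℝ) ^ X * F.gd q l i₀ z ω i₀⌋) W
        (c := 11) (by
          intro ω ω' hω hω' h
          obtain ⟨e1, e2, e3, e4⟩ := hdet ω ω' h
          obtain ⟨_, _, _, e5, _⟩ := Lab.glb_ext e1
          have k3 : ⌊(2 : ℝ) ^ X * F.gd q l i₀ z ω i₀⌋ -
              ⌊(2 : ℝ) ^ X * F.gd q l i₀ z ω' i₀⌋ =
              F.gvl (q + X) l i₀ z ω i₀ - F.gvl (q + X) l i₀ z ω' i₀ := by
            have k4 : fl X (F.gd q l i₀ z ω) i₀ - fl X (F.gd q l i₀ z ω') i₀ =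
              F.gvl (q + X) l i₀ z ω i₀ - F.gvl (q + X) l i₀ z ω' i₀ := by
              rw [Lab.fl_gd, Lab.fl_gd, e5]
              ring
            exact k4
          rw [k3]
          have key := Lab.near_vel_W (F := F) e3 (c2 := q + X) (by omega)
          have k5 := Plk.floor_sub_lt key
          have y1 : ∀ o : F.Ω, F.gvl (q + X) l i₀ z o i₀ = ⌊(2 : ℝ) ^ (q + X) * F.d o i₀⌋ := by
            intro o
            change ⌊(2 : ℝ) ^ (q + X) * pco l i₀ (z o) (F.d o) i₀⌋ = _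
            rw [Kin.pco_chart]
          rw [y1, y1]
          linarith only [k5])
      refine k1.trans (le_of_eq (by norm_num))
    have b3 : CH (Pool.Agent.H49.Ent.cond F.p A True)
        (fun ω => ⌊(2 : ℝ) ^ X * F.gd q l i₀ z ω (1 - i₀)⌋) W ≤ Real.log 23 := by
      have k1 := Lab.CH_int_const hQ (fun ω => ⌊(2 : ℝ) ^ X * F.gd q l i₀ z ω (1 - i₀)⌋) W
        (c := 11) (by
          intro ω ω' hω hω' h
          obtain ⟨e1, e2, e3, e4⟩ := hdet ω ω' h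
          obtain ⟨_, _, _, e5, _⟩ := Lab.glb_ext e1
          have k3 : ⌊(2 : ℝ) ^ X * F.gd q l i₀ z ω (1 - i₀)⌋ -
              ⌊(2 : ℝ) ^ X * F.gd q l i₀ z ω' (1 - i₀)⌋ =
              F.gvl (q + X) l i₀ z ω (1 - i₀) - F.gvl (q + X) l i₀ z ω' (1 - i₀) := by
            have k4 : fl X (F.gd q l i₀ z ω) (1 - i₀) - fl X (F.gd q l i₀ z ω') (1 - i₀) =
              F.gvl (q + X) l i₀ z ω (1 - i₀) - F.gvl (q + X) l i₀ z ω' (1 - i₀) := by
              rw [Lab.fl_gd, Lab.fl_gd, e5]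
              ring
            exact k4
          rw [k3]
          have key := Lab.vel_near (F := F) (c2 := q + X) (lam2 := l) (l := l') (C := 4)
            (f := z ω) e3 (by norm_num) (hzz ω hω) (by omega) (by omega) (by omega) (1 - i₀)
          have y1 : F.gvl (q + X) l i₀ z ω (1 - i₀) - F.gvl (q + X) l i₀ z ω' (1 - i₀) =
              fl (q + X) (pco l i₀ (z ω) (F.d ω)) (1 - i₀) -
                fl (q + X) (pco l i₀ (z ω) (F.d ω')) (1 - i₀) := by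
            unfold Fam.gvl
            rw [← e2]
          rw [y1]
          refine key.trans ?_
          norm_num)
      refine k1.trans (le_of_eq (by norm_num))
    have s1 := CH_subadd h0 (fun ω => ⌊(2 : ℝ) ^ X * F.gu w (q + w) l i₀ z ω i₀⌋)
      (fun ω => (⌊(2 : ℝ) ^ X * F.gd q l i₀ z ω i₀⌋,
        ⌊(2 : ℝ) ^ X * F.gd q l i₀ z ω (1 - i₀)⌋)) W
    have s2 := CH_subadd h0 (fun ω => ⌊(2 : ℝ) ^ X * F.gd q l i₀ z ω i₀⌋)
      (fun ω => ⌊(2 : ℝ) ^ X * F.gd q l i₀ z ω (1 - i₀)⌋) W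
    have s3 : CH (Pool.Agent.H49.Ent.cond F.p A True) (Vx F i₀ w q l X z) W =
      CH (Pool.Agent.H49.Ent.cond F.p A True) (fun ω =>
        (⌊(2 : ℝ) ^ X * F.gu w (q + w) l i₀ z ω i₀⌋, (⌊(2 : ℝ) ^ X * F.gd q l i₀ z ω i₀⌋,
        ⌊(2 : ℝ) ^ X * F.gd q l i₀ z ω (1 - i₀)⌋))) W := rfl
    linarith only [b1, b2, b3, s1, s2, s3]
  -- label and line data from the longer window
  have d1 : CH (Pool.Agent.H49.Ent.cond F.p A True)
      (fun ω => (Vx F i₀ w q l X z ω, (F.qlb w q l i₀ z ω, F.T ω)))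
      (fun ω => (F.qlb w' q' l' i₀ z' ω, F.T ω)) ≤
      Real.log 19 + 2 * ((2 : ℕ) * Real.log 23) + 3 * Real.log 23 := by
    have a1 := CH_le_add h0 (fun ω => (Vx F i₀ w q l X z ω, (F.qlb w q l i₀ z ω, F.T ω))) z
      (fun ω => (F.qlb w' q' l' i₀ z' ω, F.T ω))
    have a2 := CH_le_add h0 (fun ω => (Vx F i₀ w q l X z ω, (F.qlb w q l i₀ z ω, F.T ω)))
      (F.qlb w q l i₀ z) (fun ω => (z ω, (F.qlb w' q' l' i₀ z' ω, F.T ω)))
    have a3 : CH (Pool.Agent.H49.Ent.cond F.p A True)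
        (fun ω => (Vx F i₀ w q l X z ω, (F.qlb w q l i₀ z ω, F.T ω)))
        (fun ω => (F.qlb w q l i₀ z ω, (z ω, (F.qlb w' q' l' i₀ z' ω, F.T ω)))) ≤
        CH (Pool.Agent.H49.Ent.cond F.p A True) (Vx F i₀ w q l X z)
        (fun ω => (F.qlb w q l i₀ z ω, (z ω, (F.qlb w' q' l' i₀ z' ω, F.T ω)))) := by
      refine CH_mono_left h0 ?_
      intro ω ω' _ _ h
      have h1 := Prod.ext_iff.mp h
      have h2 := Prod.ext_iff.mp h1.2
      have h3 := Prod.ext_iff.mp h2.2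
      have h4 := Prod.ext_iff.mp h3.2
      exact Prod.ext h1.1 (Prod.ext h2.1 h4.2)
    linarith only [c1, c2, c3, a1, a2, a3]
  -- the block in the two contexts
  have d2 : CH (Pool.Agent.H49.Ent.cond F.p A True)
      (fun ω => ⌊(2 : ℝ) ^ X * nuv F i₀ w' q' l' z' φ' ω⌋)
      (fun ω => (⌊(2 : ℝ) ^ X * nuv F i₀ w q l z φ ω⌋,
        ((Vx F i₀ w q l X z ω, (F.qlb w q l i₀ z ω, F.T ω)),
          (F.qlb w' q' l' i₀ z' ω, F.T ω)))) ≤ Real.log 21 := by
    have k1 := Lab.CH_int_const hQ (fun ω => ⌊(2 : ℝ) ^ X * nuv F i₀ w' q' l' z' φ' ω⌋)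
      (fun ω => (⌊(2 : ℝ) ^ X * nuv F i₀ w q l z φ ω⌋,
        ((Vx F i₀ w q l X z ω, (F.qlb w q l i₀ z ω, F.T ω)),
          (F.qlb w' q' l' i₀ z' ω, F.T ω)))) (c := 10) (by
        intro ω ω' hω hω' h
        have hA := pos_A hω
        have h1 := Prod.ext_iff.mp h
        have h2 := Prod.ext_iff.mp h1.2
        have h3 := Prod.ext_iff.mp h2.1
        have h4 := Prod.ext_iff.mp h3.2
        have h5 := Prod.ext_iff.mp h2.2
        have m1 : ⌊(2 : ℝ) ^ X * nuv F i₀ w q l z φ ω⌋ = ⌊(2 : ℝ) ^ X * nuv F i₀ w q l z φ ω'⌋ :=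
          h1.1
        have m2 : F.qlb w q l i₀ z ω = F.qlb w q l i₀ z ω' := h4.1
        have m3 : F.qlb w' q' l' i₀ z' ω = F.qlb w' q' l' i₀ z' ω' := h5.1
        have m4 : F.T ω = F.T ω' := h5.2
        have e1 : φ ω = φ ω' := by rw [hg, hg, m2, m4]
        have e2 : φ' ω = φ' ω' := by rw [hg', hg', m3, m4]
        have e3 : z ω = z ω' := (Lab.glb_ext m2).2.1
        have e4 : z' ω = z' ω' := (Lab.glb_ext m3).2.1
        have n1 := Plk.abs_sub_lt_of_floor m1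
        have r1 := hS.2 ω hA
        have r2 := hS'.2 ω hA
        have r3 := inv_le (x := l' + X) (y := L) (by omega) (zero_le_two (α := ℝ))
        have r4 := inv_le (x := l' + X) (y := L') (by omega) (zero_le_two (α := ℝ))
        have r5 : 2 ^ (l' + X) * |φ ω - φ' ω| ≤ 4 := by
          have r6 : |φ ω - φ' ω| ≤ 4 / 2 ^ (l' + X) := by
            have e : (4 : ℝ) / 2 ^ (l' + X) = 2 / 2 ^ (l' + X) + 2 / 2 ^ (l' + X) := by ring
            rw [e]
            rw [abs_le] at r1 r2 ⊢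
            constructor <;> linarith only [r1, r2, r3, r4, r1.1, r1.2, r2.1, r2.2]
          calc (2 : ℝ) ^ (l' + X) * |φ ω - φ' ω| ≤ 2 ^ (l' + X) * (4 / 2 ^ (l' + X)) :=
                mul_le_mul_of_nonneg_left r6 (by positivity)
            _ = 4 := by field_simp
        have key := Lab.nuv_change F (X := X) hwJ hwJ' (i0 := i₀) (z := z) (z' := z')
          (S := fun o j => 2 ^ l * (φ o - z o j)) (S' := fun o j => 2 ^ l' * (φ' o - z' o j))
          (f := fun o _ => φ o) (f' := fun o _ => φ' o) (ω := ω) (ω' := ω')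
          (j := 1 - i₀) (other_ne i₀) hP (fun _ _ => rfl) (fun _ _ => rfl) m2 m3 m4
          (by rw [e1, e3]) (by rw [e2, e4]) r5
        rw [← nuv_bridge F i₀ hwJ, ← nuv_bridge F i₀ hwJ, ← nuv_bridge F i₀ hwJ',
          ← nuv_bridge F i₀ hwJ'] at key
        have n2 : |(2 : ℝ) ^ X * nuv F i₀ w' q' l' z' φ' ω -
            2 ^ X * nuv F i₀ w' q' l' z' φ' ω'| ≤ 9 := by
          rw [mul_sub, mul_sub] at key
          rw [abs_le] at key n1 ⊢
          constructor <;> linarith only [n1, key, key.1, key.2, n1.1, n1.2]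
        have := Plk.floor_sub_lt n2
        linarith only [this])
    refine k1.trans (le_of_eq (by norm_num))
  exact chain_step h0 (fun ω => ⌊(2 : ℝ) ^ X * nuv F i₀ w q l z φ ω⌋) _ (Vx F i₀ w q l X z)
    (fun ω => (F.qlb w q l i₀ z ω, F.T ω)) (fun ω => (F.qlb w' q' l' i₀ z' ω, F.T ω)) d1 d2

end H2

/-- **(H2)** -/
theorem h2 : H2Stmt := by
  obtain ⟨C, hC⟩ : ∃ C : ℝ, C = (Real.log 19 + 2 * ((2 : ℕ) * Real.log 23) + 3 * Real.log 23) +
    Real.log 21 + Real.log 43 := ⟨_, rfl⟩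
  refine ⟨C, ?_⟩
  intro J F i₀ A f n N P X H w q l L z φ hQ hF hj hs hPJ
  have h0 := hQ.nonneg
  have l19 : 0 ≤ Real.log 19 := Real.log_nonneg (by norm_num)
  have l21 : 0 ≤ Real.log 21 := Real.log_nonneg (by norm_num)
  have l23 : 0 ≤ Real.log 23 := Real.log_nonneg (by norm_num)
  have l43 : 0 ≤ Real.log 43 := Real.log_nonneg (by norm_num)
  have hC0 : 0 ≤ C := by
    rw [hC]
    push_cast
    positivity
  -- the terms telescope
  have key : ∀ k ≤ N, ∑ j ∈ Finset.range k,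
      (CH (Pool.Agent.H49.Ent.cond F.p A True)
          (fun ω => ⌊(2 : ℝ) ^ X * nuv F i₀ (w j) (q j) (l j) (z j) (φ j) ω⌋)
          (fun ω => (F.qlb (w j) (q j) (l j) i₀ (z j) ω, F.T ω)) -
        CH (Pool.Agent.H49.Ent.cond F.p A True)
          (fun ω => ⌊(2 : ℝ) ^ X * nuv F i₀ (w j) (q j) (l j) (z j) (φ j) ω⌋)
          (fun ω => (Vx F i₀ (w j) (q j) (l j) X (z j) ω,
            (F.qlb (w j) (q j) (l j) i₀ (z j) ω, F.T ω)))) ≤
      CH (Pool.Agent.H49.Ent.cond F.p A True)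
          (fun ω => ⌊(2 : ℝ) ^ X * nuv F i₀ (w 0) (q 0) (l 0) (z 0) (φ 0) ω⌋)
          (fun ω => (F.qlb (w 0) (q 0) (l 0) i₀ (z 0) ω, F.T ω)) -
        CH (Pool.Agent.H49.Ent.cond F.p A True)
          (fun ω => ⌊(2 : ℝ) ^ X * nuv F i₀ (w k) (q k) (l k) (z k) (φ k) ω⌋)
          (fun ω => (F.qlb (w k) (q k) (l k) i₀ (z k) ω, F.T ω)) + C * k := by
    intro k
    induction k with
    | zero =>
      intro _
      simp
    | succ k ih =>
      intro hk
      have ih' := ih (by omega)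
      obtain ⟨a1, a2, a3, a4, a5⟩ := hj k (by omega)
      obtain ⟨b1, b2, b3, b4, b5⟩ := hj (k + 1) hk
      obtain ⟨c1, c2, c3⟩ := hs k (by omega)
      have st := H2.step hQ a1 a2 b1 b2 (a3.trans b3.symm) (by omega) a4 c1 c2 c3
      rw [Finset.sum_range_succ]
      push_cast
      have e1 : C * ((k : ℝ) + 1) = C * k + C := by ring
      rw [e1]
      have e2 : (Real.log 19 + 2 * ((2 : ℕ) * Real.log 23) + 3 * Real.log 23) +
        Real.log 21 ≤ C := by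
        rw [hC]
        linarith only [l43]
      linarith only [hC, l43, ih', st]
  have k1 := key N le_rfl
  obtain ⟨a1, a2, a3, a4, a5⟩ := hj 0 (Nat.zero_le N)
  have k2 := H2.nuv_full (X := X) hQ (show w 0 ≤ J by omega) a1 a2 (show l 0 ≤ L 0 by omega)
    (fun ω => (F.qlb (w 0) (q 0) (l 0) i₀ (z 0) ω, F.T ω))
  have k3 := CH_nonneg h0 (fun ω => ⌊(2 : ℝ) ^ X * nuv F i₀ (w N) (q N) (l N) (z N) (φ N) ω⌋)
    (fun ω => (F.qlb (w N) (q N) (l N) i₀ (z N) ω, F.T ω))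
  have k4 : Real.log 43 ≤ C := by
    rw [hC]
    push_cast
    nlinarith only [l19, l21, l23]
  have e1 : C * ((N : ℝ) + 1) = C * N + C := by ring
  linarith only [k1, k2, k3, k4]

end Pool.K2S
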